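import Mathlib

/-!
# Packet P3 for MP_4f6c32_ag: the determinant of a quaternionic matrix is nonnegative
-/

namespace Pool.Agent.Helper84.Griff

open Module

universe u

theorem pair_independent {V : Type u} [AddCommGroup V] [Module ℂ V]
    (J : V →ₛₗ[starRingEnd ℂ] V) (hJ : ∀ v, J (J v) = -v) (v : V) (hv : v ≠ 0) :
    LinearIndependent ℂ ![v, J v] := by
  rw [LinearIndependent.pair_iff' hv]
  intro a ha
  have h1 : J (J v) = ((starRingEnd ℂ) a * a) • v := by
    rw [← ha, map_smulₛₗ, ← ha, smul_smul]
  rw [hJ v] at h1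
  have h2 : ((starRingEnd ℂ) a * a + 1) • v = 0 := by
    rw [add_smul, one_smul, ← h1]; simp
  rcases smul_eq_zero.1 h2 with h3 | h3
  · rw [mul_comm, Complex.mul_conj] at h3
    have h4 : (Complex.normSq a + 1 : ℝ) = 0 := by exact_mod_cast h3
    have := Complex.normSq_nonneg a
    linarith
  · exact hv h3

theorem det_nonneg_of_quaternionic (m : ℕ) : ∀ (V : Type u) [AddCommGroup V] [Module ℂ V]
    [FiniteDimensional ℂ V] (J : V →ₛₗ[starRingEnd ℂ] V) (_ : ∀ v, J (J v) = -v)
    (T : V →ₗ[ℂ] V) (_ : ∀ v, T (J v) = J (T v)), finrank ℂ V = m →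
    ∃ x : ℝ, 0 ≤ x ∧ LinearMap.det T = (x : ℂ) := by
  induction m using Nat.strong_induction_on with
  | _ m ih =>
    intro V _ _ _ J hJ T hT hm
    by_cases hV : Subsingleton V
    · refine ⟨1, zero_le_one, ?_⟩
      rw [LinearMap.det_eq_one_of_finrank_eq_zero]
      · simp
      · exact finrank_zero_of_subsingleton
    rw [not_subsingleton_iff_nontrivial] at hV
    obtain ⟨c, hc⟩ := Module.End.exists_eigenvalue T
    obtain ⟨v, hv⟩ := hc.exists_hasEigenvector
    have hTv : T v = c • v := hv.apply_eq_smul
    have hTJv : T (J v) = (starRingEnd ℂ c) • J v := by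
      rw [hT, hTv, map_smulₛₗ]
    have hli := pair_independent J hJ v hv.2
    set W : Submodule ℂ V := Submodule.span ℂ (Set.range ![v, J v]) with hW
    have hv0 : v ∈ W := Submodule.subset_span ⟨0, rfl⟩
    have hv1 : J v ∈ W := Submodule.subset_span ⟨1, rfl⟩
    have hTW : W ≤ W.comap T := by
      rw [hW, Submodule.span_le]
      rintro _ ⟨i, rfl⟩
      fin_cases i
      · change T v ∈ W
        rw [hTv]; exact W.smul_mem _ hv0
      · change T (J v) ∈ W
        rw [hTJv]; exact W.smul_mem _ hv1
    have hJW : W ≤ W.comap J := by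
      rw [hW, Submodule.span_le]
      rintro _ ⟨i, rfl⟩
      fin_cases i
      · exact hv1
      · change J (J v) ∈ W
        rw [hJ]; exact W.neg_mem hv0
    let b : Basis (Fin 2) ℂ W := Basis.span hli
    have hb0 : (b 0 : V) = v := congrArg Subtype.val (Basis.span_apply hli 0)
    have hb1 : (b 1 : V) = J v := congrArg Subtype.val (Basis.span_apply hli 1)
    have hfr : finrank ℂ W = 2 := by
      rw [Module.finrank_eq_card_basis b]; simp
    have hdim : finrank ℂ (V ⧸ W) < m := by
      have := Submodule.finrank_quotient_add_finrank W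
      omega
    obtain ⟨x, hx0, hx⟩ := ih _ hdim (V ⧸ W) (W.mapQ W J hJW)
      (by
        intro q
        obtain ⟨w, rfl⟩ := Submodule.Quotient.mk_surjective W q
        simp only [Submodule.mapQ_apply]
        rw [hJ]; rfl)
      (W.mapQ W T hTW)
      (by
        intro q
        obtain ⟨w, rfl⟩ := Submodule.Quotient.mk_surjective W q
        simp only [Submodule.mapQ_apply]
        rw [hT]) rfl
    have hrest : LinearMap.det (T.restrict hTW) = c * starRingEnd ℂ c := by
      rw [← LinearMap.det_toMatrix b]
      have : LinearMap.toMatrix b b (T.restrict hTW) = Matrix.diagonal ![c, starRingEnd ℂ c] := by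
        have e0 : (T.restrict hTW) (b 0) = c • b 0 := by
          ext
          rw [LinearMap.restrict_apply]
          simp [hb0, hTv]
        have e1 : (T.restrict hTW) (b 1) = (starRingEnd ℂ c) • b 1 := by
          ext
          rw [LinearMap.restrict_apply]
          simp [hb1, hTJv]
        ext i j
        rw [LinearMap.toMatrix_apply]
        fin_cases j
        · simp only [Fin.zero_eta, Fin.isValue, e0]
          fin_cases i <;> simp
        · simp only [Fin.mk_one, Fin.isValue, e1]
          fin_cases i <;> simp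
      rw [this, Matrix.det_diagonal]
      simp
    refine ⟨Complex.normSq c * x, mul_nonneg (Complex.normSq_nonneg _) hx0, ?_⟩
    rw [LinearMap.det_eq_det_mul_det W T hTW, hrest, hx, Complex.mul_conj]
    push_cast
    rfl

/-- the structure map -/
def quatJ (n : Type*) : (n ⊕ n → ℂ) →ₛₗ[starRingEnd ℂ] (n ⊕ n → ℂ) where
  toFun w := Sum.elim (fun i => -(starRingEnd ℂ) (w (Sum.inr i)))
    (fun i => (starRingEnd ℂ) (w (Sum.inl i)))
  map_add' w w' := by
    ext i
    rcases i with i | i
    · simp; ring
    · simp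
  map_smul' c w := by
    ext i
    rcases i with i | i <;> simp

theorem quatJ_sq (n : Type*) (w : n ⊕ n → ℂ) : quatJ n (quatJ n w) = -w := by
  ext i
  rcases i with i | i <;> simp [quatJ]

theorem det_quat_nonneg {n : Type*} [Fintype n] [DecidableEq n] (P Q : Matrix n n ℂ) :
    ∃ x : ℝ, 0 ≤ x ∧ (Matrix.fromBlocks P (Q.map star) (-Q) (P.map star)).det = (x : ℂ) := by
  have := det_nonneg_of_quaternionic _ (n ⊕ n → ℂ) (quatJ n) (quatJ_sq n)
    (Matrix.toLin' (Matrix.fromBlocks P (Q.map star) (-Q) (P.map star))) (by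
      intro w
      ext i
      rcases i with i | i
      · simp only [Matrix.toLin'_apply, Matrix.mulVec, dotProduct, Fintype.sum_sum_type,
          Matrix.fromBlocks_apply₁₁, Matrix.fromBlocks_apply₁₂, quatJ,
          Matrix.fromBlocks_apply₂₁, Matrix.fromBlocks_apply₂₂, LinearMap.coe_mk,
          AddHom.coe_mk, Sum.elim_inl, Sum.elim_inr, map_add, map_sum, map_mul,
          Matrix.map_apply, Matrix.neg_apply, map_neg]
        simp [Finset.sum_neg_distrib]
      · simp only [Matrix.toLin'_apply, Matrix.mulVec, dotProduct, Fintype.sum_sum_type,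
          Matrix.fromBlocks_apply₁₁, Matrix.fromBlocks_apply₁₂, quatJ,
          Matrix.fromBlocks_apply₂₁, Matrix.fromBlocks_apply₂₂, LinearMap.coe_mk,
          AddHom.coe_mk, Sum.elim_inl, Sum.elim_inr, map_add, map_sum, map_mul,
          Matrix.map_apply, Matrix.neg_apply, map_neg]
        simp
        ring) rfl
  rwa [LinearMap.det_toLin'] at this

end Pool.Agent.Helper84.Griff
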